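import Pool.Agent.helper10.V3.SpecL

/-!
# Project v3: REG: topology of the regular set
-/

set_option autoImplicit false

open Complex Metric Set Filter Topology MeasureTheory MPS

noncomputable section

namespace V3S

/-- near a pole the limit `B` does not vanish. -/
theorem REG_pole (B h : ℂ → ℂ) (p gp : ℂ) (hh : AnalyticAt ℂ h p)
    (he : ∀ᶠ x in 𝓝[≠] p, B x = 1 / (x - p) ^ 2 + gp / (x - p) + h x) :
    ∀ᶠ x in 𝓝[≠] p, B x ≠ 0 := by
  have hc : Tendsto (fun x => 1 + gp * (x - p) + (x - p) ^ 2 * h x) (𝓝 p) (𝓝 1) := by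
    have h1 : ContinuousAt (fun x => 1 + gp * (x - p) + (x - p) ^ 2 * h x) p := by
      have := hh.continuousAt
      fun_prop
    have h2 := h1.tendsto
    simpa using h2
  have h3 : ∀ᶠ x in 𝓝 p, 1 + gp * (x - p) + (x - p) ^ 2 * h x ≠ 0 :=
    hc.eventually_ne one_ne_zero
  have h4 : ∀ᶠ x in 𝓝[≠] p, 1 + gp * (x - p) + (x - p) ^ 2 * h x ≠ 0 :=
    h3.filter_mono nhdsWithin_le_nhds
  have h5 : ∀ᶠ x in 𝓝[≠] p, x ≠ p := by
    filter_upwards [self_mem_nhdsWithin] with x hx using hx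
  filter_upwards [he, h4, h5] with x hx1 hx2 hx3 hx0
  apply hx2
  have hne : x - p ≠ 0 := sub_ne_zero.mpr hx3
  rw [hx0] at hx1
  field_simp at hx1
  linear_combination (-1 : ℂ) * hx1

theorem REG (hLMB : LMB_stmt) (hLPI : LPI_stmt) : REG_stmt := by
  intro n ra Cf D hD
  obtain ⟨hBd, -, ⟨g, -, hgp, -⟩, -, -⟩ := hLMB n ra Cf D hD
  obtain ⟨-, h0, -, hcl, hcount, hpre, c₀, hc₀, hsep, -⟩ := hLPI n ra Cf D hD
  have hop : IsOpen (Pin D)ᶜ := hcl.isOpen_compl
  have hpole : ∀ p ∈ Pin D, ∀ᶠ x in 𝓝[≠] p, Bin D x ≠ 0 := by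
    intro p hp
    obtain ⟨h, hh, he⟩ := hgp p hp
    exact REG_pole (Bin D) h p (g p) hh he
  have hpin : ∀ p ∈ Pin D, ∀ᶠ x in 𝓝[≠] p, x ∉ Pin D := by
    intro p hp
    have h1 : ∀ᶠ x in 𝓝[≠] p, x ∈ ball p c₀ := (ball_mem_nhds p hc₀ |> mem_nhdsWithin_of_mem_nhds)
    have h2 : ∀ᶠ x in 𝓝[≠] p, x ≠ p := by
      filter_upwards [self_mem_nhdsWithin] with x hx using hx
    filter_upwards [h1, h2] with x hx1 hx2 hx3
    have := hsep x hx3 p hp hx2
    rw [mem_ball, dist_eq_norm] at hx1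
    linarith
  -- key: isolated points
  have key : ∀ x : ℂ, ∀ᶠ y in 𝓝[≠] x, y ∈ Reg D := by
    intro x
    by_cases hx : x ∈ Pin D
    · filter_upwards [hpole x hx, hpin x hx] with y hy1 hy2 using ⟨hy2, hy1⟩
    · have hnhd : (Pin D)ᶜ ∈ 𝓝 x := hop.mem_nhds hx
      have hAn : AnalyticOnNhd ℂ (Bin D) (Pin D)ᶜ := hBd.analyticOnNhd hop
      have hA : AnalyticAt ℂ (Bin D) x := hAn x hx
      rcases hA.eventually_eq_zero_or_eventually_ne_zero with hz | hnz
      · exfalso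
        have hall := hAn.eqOn_zero_of_preconnected_of_eventuallyEq_zero hpre hx hz
        have h1 := (hpole 0 h0).and (hpin 0 h0)
        obtain ⟨y, hy1, hy2⟩ := h1.exists
        exact hy1 (hall hy2)
      · have h1 : ∀ᶠ y in 𝓝[≠] x, y ∈ (Pin D)ᶜ := mem_nhdsWithin_of_mem_nhds hnhd
        filter_upwards [hnz, h1] with y hy1 hy2 using ⟨hy2, hy1⟩
  have key2 : ∀ x : ℂ, ∃ ε > (0 : ℝ), ∀ y ∈ ball x ε, y ≠ x → y ∈ Reg D := by
    intro x
    have h1 := key x
    rw [eventually_nhdsWithin_iff, Metric.eventually_nhds_iff_ball] at h1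
    obtain ⟨ε, hε, h⟩ := h1
    exact ⟨ε, hε, fun y hy hne => h y hy hne⟩
  refine ⟨?_, ?_, key2⟩
  · rw [Metric.isOpen_iff]
    intro x hx
    obtain ⟨ε, hε, h⟩ := key2 x
    refine ⟨ε, hε, fun y hy => ?_⟩
    by_cases hyx : y = x
    · rw [hyx]; exact hx
    · exact h y hy hyx
  · choose ε hε hreg using key2
    have hcov := TopologicalSpace.countable_cover_nhds (f := fun x : ℂ => ball x (ε x))
      (fun x => ball_mem_nhds x (hε x))
    obtain ⟨s, hs, hcov⟩ := hcov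
    have hsub : (Reg D)ᶜ ⊆ s := by
      intro y hy
      have hy1 : y ∈ ⋃ x ∈ s, ball x (ε x) := by rw [hcov]; trivial
      simp only [mem_iUnion] at hy1
      obtain ⟨x, hxs, hyx⟩ := hy1
      by_cases hne : y = x
      · rw [hne]; exact hxs
      · exact absurd (hreg x y hyx hne) hy
    have hcnt : ((Reg D)ᶜ).Countable := hs.mono hsub
    have hrk : 1 < Module.rank ℝ ℂ := by
      rw [Complex.rank_real_complex]
      exact Nat.one_lt_ofNat
    have hconn := hcnt.isConnected_compl_of_one_lt_rank hrk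
    rw [compl_compl] at hconn
    exact hconn.isPreconnected

end V3S
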