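import Pool.Agent.helper36.V3.SpecW

/-!
# Project v3: VPD: the main theorem for polynomials with bounded coefficients
-/

set_option autoImplicit false

open Complex Metric Set Filter Topology MeasureTheory MPS Pool.Agent.helper98.ILF Pool.Agent.helper16.Multibrot

noncomputable section

namespace V3W

/-- the cycle under the iterates. -/
theorem VPD_iter (k : ℕ) [NeZero k] (f : Polynomial ℂ) (b : ZMod k → ℂ) (hb : PPS.IsCyc f b)
    (i : ZMod k) (j : ℕ) : (fun w : ℂ => f.eval w)^[j] (b i) = b (i + j) := by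
  induction j with
  | zero => simp
  | succ j ih =>
    rw [Function.iterate_succ_apply', ih]
    have h := hb.step (i + j)
    push_cast
    rw [← add_assoc]
    exact h

theorem VPD_per (k : ℕ) [NeZero k] (f : Polynomial ℂ) (b : ZMod k → ℂ) (hb : PPS.IsCyc f b)
    (i : ZMod k) : (fun w : ℂ => f.eval w)^[k] (b i) = b i := by
  rw [VPD_iter k f b hb i k]
  simp

theorem VPD (hM : V3S.V3P_stmt) (hCRB : CRB_stmt) (hREB : REB_stmt) (hRAD : PPS.RAD_stmt) :
    VPD_stmt := by
  intro n a Cf hn ha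
  obtain ⟨A, hA1, hA⟩ := hRAD n a hn ha
  obtain ⟨A', hA'0, hA'⟩ := hCRB n a hn ha
  set ra : ℝ := max A A' with hra
  obtain ⟨ε, hε, hmain⟩ := hM n ra Cf
  refine ⟨ε, hε, ?_⟩
  intro k _ f b g lam hk hBd hcyc hex hrho hlam her
  obtain ⟨-, h2, h3⟩ := hA f hBd
  obtain ⟨y, hy1, hy2⟩ := hA' f hBd
  have hAra : A ≤ ra := le_max_left _ _
  have hra1 : 1 ≤ ra := hA1.trans hAra
  have hra0 : 0 < ra := by linarith
  have hbb : ∀ j, ‖b j‖ ≤ ra := fun j =>
    ((h3 k (b j) (by omega) (VPD_per k f b hcyc j)).le).trans hAra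
  obtain ⟨D, hD, hDl⟩ := hREB n k f b g lam ra Cf hn hBd.1 hk hcyc hrho hlam hex hra0 hbb
    ⟨y, hy1.trans (le_max_right _ _), hy2⟩
    (fun R hR y hy => h2 R y (hAra.trans hR.le) hy)
    (fun R hR => her R (hra1.trans hR.le))
  have := hmain D hD
  rwa [hDl] at this

end V3W
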